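import Pool.Agent.H29.GenusBound
import Pool.Agent.H29.HyperExists

/-!
# Containments of Brill-Noether loci below the secant threshold

For every `r ≥ 3`, `2 ≤ s ≤ 1 + ⌊(r-1)/2⌋`, `d ≥ 2r` and every `g > (d-r)(d-r+1)/2` we show
`M^r_{g,d} ⊆ M^s_{g,e}` with `e = d - 2(r-s) < d - 2r + 2 + s + ⌊(r-1)/2⌋`, where both loci are
Brill-Noether loci (not empty, negative Brill-Noether number) and `d, e ≤ g - 1`.
-/

namespace Pool.Agent.Results.MP_eed2ef_ag.OutsideSecantRange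

open Pool.Agent.H29

/-- If `2 g > (d - r) (d - r + 1)` then every curve of genus `g` with a `g^r_d` has a
`g^s_(d - 2 (r - s))`, for all `1 ≤ s ≤ r`. -/
theorem containment {g r s d : ℤ} (hs : 1 ≤ s) (hrs : s ≤ r) (hrd : r ≤ d)
    (hg : (d - r) * (d - r + 1) < 2 * g) :
    BNSet g r d ⊆ BNSet g s (d - 2 * (r - s)) := by
  rintro C ⟨hC, hL⟩
  refine ⟨hC, ?_⟩
  obtain ⟨j, hj⟩ : ∃ j : ℕ, (j : ℤ) = r - s := ⟨(r - s).toNat, Int.toNat_of_nonneg (by omega)⟩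
  have h := exists_drop_iterate hC j (by omega) hL hrd hg
  have e1 : r - (j : ℤ) = s := by omega
  have e2 : d - 2 * (j : ℤ) = d - 2 * (r - s) := by omega
  rwa [e1, e2] at h

/-- Nonemptiness: hyperelliptic curves. -/
theorem nonempty_BNSet {g r d : ℤ} (hg : 0 ≤ g) (hr : 0 ≤ r) (hd : 2 * r ≤ d) :
    (BNSet g r d).Nonempty := by
  obtain ⟨C, hC, hL⟩ := exists_curve g.toNat
  rw [Int.toNat_of_nonneg hg] at hC
  exact ⟨C, hC, hL r d hr hd⟩

theorem result (g r s d : ℤ) (hs : 2 ≤ s) (hsr : s ≤ 1 + (r - 1) / 2) (hd : 2 * r ≤ d)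
    (hg : (d - r) * (d - r + 1) < 2 * g) :
    (s + 1 ≤ r ∧ d ≤ g - 1 ∧ d - 2 * (r - s) ≤ g - 1 ∧
      d - 2 * (r - s) < d - 2 * r + 2 + s + (r - 1) / 2) ∧
    IsBNLocus g r d ∧ IsBNLocus g s (d - 2 * (r - s)) ∧
    BNSet g r d ⊆ BNSet g s (d - 2 * (r - s)) := by
  have hr : 3 ≤ r := by omega
  have hsr' : s + 1 ≤ r := by omega
  have h1 : d ≤ g - 1 := by nlinarith
  refine ⟨⟨hsr', h1, by omega, by omega⟩, ⟨by omega, ?_, ?_⟩, ⟨by omega, ?_, ?_⟩, ?_⟩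
  · unfold rho
    nlinarith
  · exact nonempty_BNSet (by omega) (by omega) hd
  · unfold rho
    nlinarith
  · exact nonempty_BNSet (by omega) (by omega) (by omega)
  · exact containment (by omega) (by omega) (by omega) hg

end Pool.Agent.Results.MP_eed2ef_ag.OutsideSecantRange
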